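import Pool.Agent.Y507.LS2.Fin
import Pool.Agent.Y507.LS2.Ex
import Pool.Agent.Y96.LS2.Sym
import Pool.Agent.Y195.LS2.Evol
import Pool.Agent.Y407.LS2.Eft
import Pool.Agent.TH883.LS.LSB_BALL
import Pool.Agent.TH400.LS_E4
import Pool.Agent.TH496.LS_MOD
import Pool.Agent.TH889.LS_W
import Pool.Agent.TH889.LS_DUAL
import Pool.Agent.TH73.LS_LS4
import Pool.Agent.TH986.LS_SUM
import Pool.Agent.TH499.LSC_SUMK
import Pool.Agent.TH346.LSC_ONEK
import Pool.Agent.TH148.LSC_T2K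
import Pool.Agent.TH902.LSC_T4K
import Pool.Agent.TH962.LSC_TPK
set_option autoImplicit false

/-! # Local smoothing for data with regular slices

The estimate of Q1 in every dimension `d = m + 1 ≥ 2`, for `2 ≤ p ≤ 4`, for all data on `ℝ^d` whose
restrictions to the hyperplanes orthogonal to some direction are sums of at most `N` multiples of
nonnegative functions with regular superlevel sets. A set `S` is regular with exponents `β ≥ γ` if
it is comparable in volume to a box with sides `a_i ≤ R₀` parallel to fixed axes, if its boundary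
has dimension at most `m - γ` in the sense that a translation by `h` in direction `i` changes at
most the proportion `Λ (|h|/a_i)^γ` of the box, and if, in case `γ < β`, its Fourier transform is
at most `Λ ∏ a_i · (a_i |η_i|)^(-β)`. The sides, the sets, the functions and the factors depend on
the hyperplane in an arbitrary way, and nothing is assumed on this dependence. `s_p - σ` is
replaced by any `s > 0` with `s > (m-β)(1-2/p) - γ/p`.

For `γ = 1` and `β ≥ max(1, (d-1)/2)` this contains the full range `σ < 1/p` of the conjecture for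
`2d/(d-1) ≤ p ≤ 4`, in particular for all exponents `p < 2(d+1)/(d-1)` for which it is open.
This applies

* in dimension `d = 3` to all sets with `γ = 1` (boundaries of finite area), in particular to all
  sets which are comparable to a box and meet the lines parallel to the axes in intervals, such as
  convex sets comparable to boxes of arbitrary eccentricity;
* in every dimension `d ≥ 3` to ellipsoids with axes parallel to fixed axes and of arbitrary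
  eccentricity, for which `γ = 1` and `β = d/2`. (Balls are in the older result
  `RadialSliceData`.)
-/

open MeasureTheory Set
open scoped ENNReal FourierTransform RealInnerProductSpace

namespace Pool.Agent.Results.MP_ee74d2_an.RegularSlices

/-- `ℝ^d` -/
abbrev E (d : ℕ) : Type := EuclideanSpace ℝ (Fin d)

/-- Functions `F ≥ 0` on `ℝ^m` with regular superlevel sets: for each `r > 0` the set
`S = {F > r}` is a null set, or there are sides `0 < a_i ≤ R₀` with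
`∏ a_i ≤ Λ |S|`, `|S| ≤ Λ ∏ a_i`, and for all `i` and `h` the set of the points `y` for which
exactly one of `y`, `y + h e_i` is in `S` has measure at most `Λ (∏ a_i) (|h|/a_i)^γ`; if `γ < β`
then moreover the Fourier transform of `S` at `η` is at most `Λ (∏ a_i) (a_i |η_i|)^(-β)`. -/
def Regular {m : ℕ} (β γ R₀ Λ : ℝ) (F : (Fin m → ℝ) → ℝ) : Prop :=
  Measurable F ∧ (∀ y, 0 ≤ F y) ∧ ∀ r : ℝ, 0 < r → volume {y | r < F y} = 0 ∨
    ∃ a : Fin m → ℝ, (∀ i, 0 < a i ∧ a i ≤ R₀) ∧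
      ENNReal.ofReal (∏ i, a i) ≤ ENNReal.ofReal Λ * volume {y | r < F y} ∧
      volume {y | r < F y} ≤ ENNReal.ofReal (Λ * ∏ i, a i) ∧
      (∀ (i : Fin m) (h : ℝ), volume {y | ¬(r < F (y + Pi.single i h) ↔ r < F y)} ≤
        ENNReal.ofReal (Λ * (∏ i, a i) * (|h| / a i) ^ γ)) ∧
      (γ < β → ∀ (i : Fin m) (η : Fin m → ℝ),
        ‖∫ y in {y | r < F y}, Complex.exp (((2 * Real.pi * -(∑ j, y j * η j) : ℝ) : ℂ) *
          Complex.I)‖ * (a i * |η i|) ^ β ≤ Λ * ∏ i, a i)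

/-- The class of data on `ℝ^(m+1)`: for some orthonormal basis `v_0, …, v_m` and for each `x`, the
slice `y ↦ f(Σ_{i<m} y_i v_i + x v_m)` is a sum `Σ_{j<N} b_j F_j` with complex numbers `b_j` and
regular functions `F_j`, and no summand is much larger than the sum:
`∫ |b_j F_j|^p ≤ Λ ∫ |Σ_j b_j F_j|^p`. (For `Λ ≥ 1` the last condition is automatic if `N = 1`, or
if the summands have disjoint supports, or if all `b_j ≥ 0`.) -/
def Data (m N : ℕ) (β γ p R₀ Λ : ℝ) (f : E (m + 1) → ℂ) : Prop :=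
  ∃ v : OrthonormalBasis (Fin (m + 1)) ℝ (E (m + 1)), ∀ x : ℝ,
    ∃ (b : Fin N → ℂ) (F : Fin N → (Fin m → ℝ) → ℝ), (∀ j, Regular β γ R₀ Λ (F j)) ∧
      (∀ y : Fin m → ℝ, f (∑ i, y i • v i.castSucc + x • v (Fin.last m)) =
        ∑ j, b j * ((F j y : ℝ) : ℂ)) ∧
      ∀ j, ∫⁻ y, ‖b j * ((F j y : ℝ) : ℂ)‖ₑ ^ p ≤
        ENNReal.ofReal Λ * ∫⁻ y, ‖∑ j, b j * ((F j y : ℝ) : ℂ)‖ₑ ^ p

/-- The symbol `(1 + 4π²|ζ|²)^(a/2)` of `(I - Δ)^(a/2)`. -/
noncomputable def bessel {d : ℕ} (a : ℝ) (ζ : E d) : ℝ :=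
  (1 + 4 * Real.pi ^ 2 * ‖ζ‖ ^ 2) ^ (a / 2)

/-- For `τ = 0`: the solution `u(t, z)` of the wave equation on `ℝ^d` with data
`u(0) = (I - Δ)^(-s/2) f₀`, `∂ₜu(0) = (I - Δ)^((1-s)/2) f₁`, i.e. the inverse Fourier transform of
`cos(2πt|ζ|) (1+4π²|ζ|²)^(-s/2) f₀^(ζ) + sin(2πt|ζ|)/(2π|ζ|) (1+4π²|ζ|²)^((1-s)/2) f₁^(ζ)`.
For `τ > 0`: the same with the factor `exp(-τ|ζ|²)` (the solution regularised by the heat flow). -/
noncomputable def wave {d : ℕ} (s τ : ℝ) (f₀ f₁ : E d → ℂ) (t : ℝ) (z : E d) : ℂ :=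
  ∫ ζ : E d, Complex.exp (((2 * Real.pi * ⟪z, ζ⟫ : ℝ) : ℂ) * Complex.I) *
    (((Real.exp (-(τ * ‖ζ‖ ^ 2)) : ℝ) : ℂ) *
      (((Real.cos (2 * Real.pi * (t * ‖ζ‖)) * bessel (-s) ζ : ℝ) : ℂ) * 𝓕 f₀ ζ +
       ((Real.sin (2 * Real.pi * (t * ‖ζ‖)) / (2 * Real.pi * ‖ζ‖) * bessel (1 - s) ζ : ℝ) : ℂ) *
        𝓕 f₁ ζ))

/-- The estimate for data in the class `D`: there is a constant `C` such that for all integrable
`f₀, f₁` in `D` and all `0 ≤ τ ≤ 1`, where for `τ = 0` we assume that `(I - Δ)^(-s/2) f₀` and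
`(I - Δ)^(-s/2) f₁` have integrable Fourier transforms (this holds for Schwartz functions),
`∫_1^2 ‖u(t)‖_p^p dt ≤ C (‖f₀‖_p^p + ‖f₁‖_p^p)`. -/
def Estimate {d : ℕ} (s p : ℝ) (D : (E d → ℂ) → Prop) : Prop :=
  ∃ C : ℝ, 0 < C ∧ ∀ f₀ f₁ : E d → ℂ, Integrable f₀ → Integrable f₁ → D f₀ → D f₁ →
    ∀ τ : ℝ, 0 ≤ τ → τ ≤ 1 →
    (0 < τ ∨ (Integrable (fun ζ => ((bessel (-s) ζ : ℝ) : ℂ) * 𝓕 f₀ ζ) ∧
      Integrable (fun ζ => ((bessel (-s) ζ : ℝ) : ℂ) * 𝓕 f₁ ζ))) →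
    ∫⁻ t in Icc (1 : ℝ) 2, ∫⁻ z, ‖wave s τ f₀ f₁ t z‖ₑ ^ p ≤
      ENNReal.ofReal C * ((∫⁻ z, ‖f₀ z‖ₑ ^ p) + ∫⁻ z, ‖f₁ z‖ₑ ^ p)

/-- Functions `F ≥ 0` whose superlevel sets are, up to null sets, ellipsoids with axes parallel to
the coordinate axes and with half-axes at most `R₀`, or null sets. -/
def Ellipsoidal {m : ℕ} (R₀ : ℝ) (F : (Fin m → ℝ) → ℝ) : Prop :=
  Measurable F ∧ (∀ y, 0 ≤ F y) ∧ ∀ r : ℝ, 0 < r → volume {y | r < F y} = 0 ∨
    ∃ c l : Fin m → ℝ, (∀ i, 0 < l i ∧ l i ≤ R₀) ∧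
      {y | r < F y} =ᵐ[volume] {y | ∑ i, ((y i - c i) / l i) ^ 2 ≤ 1}

/-- Functions `F ≥ 0` whose superlevel sets meet the lines parallel to the axes in intervals and
are contained in a box with sides `l_i ≤ R₀` and with volume at most `Λ |{F > r}|`. -/
def BoxLike {m : ℕ} (R₀ Λ : ℝ) (F : (Fin m → ℝ) → ℝ) : Prop :=
  Measurable F ∧ (∀ y, 0 ≤ F y) ∧ ∀ r : ℝ, 0 < r →
    (∀ (y : Fin m → ℝ) (i : Fin m), OrdConnected {t : ℝ | r < F (Function.update y i t)}) ∧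
    ∃ c l : Fin m → ℝ, (∀ i, 0 ≤ l i ∧ l i ≤ R₀) ∧ {y | r < F y} ⊆ Icc c (c + l) ∧
      ENNReal.ofReal (∏ i, l i) ≤ ENNReal.ofReal Λ * volume {y | r < F y}

/-- **Local smoothing for data with regular slices**, with the two main examples of regular
functions. -/
theorem result (m : ℕ) (hm : 1 ≤ m) (R₀ : ℝ) (hR : 0 < R₀) :
    (∀ (N : ℕ) (β γ p s Λ : ℝ), 0 < γ → γ ≤ 1 → γ ≤ β → 2 ≤ p → p ≤ 4 → 0 < s →
      ((m : ℝ) - β) * (p - 2) - γ < s * p → 0 < Λ → Estimate s p (Data m N β γ p R₀ Λ)) ∧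
    (∃ Λ : ℝ, 0 < Λ ∧ ∀ F : (Fin m → ℝ) → ℝ, Ellipsoidal R₀ F →
      Regular (((m : ℝ) + 1) / 2) 1 R₀ Λ F) ∧
    ∀ (Λ : ℝ) (F : (Fin m → ℝ) → ℝ), BoxLike R₀ Λ F → Regular 1 1 R₀ (max 2 Λ) F := by
  open Pool.Agent.TH280.LS in
  have hBALL : S_BALL := Pool.Agent.TH883.BALL.ball_thm
  refine ⟨?_, ?_, ?_⟩
  · intro N β γ p s Λ hγ _ hγβ hp hp4 hs hs2 hΛ
    have hW : S_W := Pool.Agent.TH889.W.w_thm
    have hDUAL : S_DUAL := Pool.Agent.TH889.DUAL.dual_thm Pool.Agent.TH496.MOD.mod_thm hW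
    have hSUM : S_SUM := Pool.Agent.TH986.SUM.sum_thm (Pool.Agent.TH73.LS4.ls4_thm hDUAL hW)
    have hONEK : S_ONEK := Pool.Agent.TH346.ONEK.onek_thm (Pool.Agent.TH499.SUMK.sumk_thm hSUM)
    have hone : OneD m s p (Pool.Agent.Y507.LS2.Cls m N β γ p R₀ Λ) :=
      Pool.Agent.Y507.LS2.cls_one Pool.Agent.TH400.E4.e4_thm hONEK Pool.Agent.TH148.T2K.t2k_thm
        Pool.Agent.TH902.T4K.t4k_thm Pool.Agent.TH962.TPK.tpk_thm hm N hR hΛ hγ hγβ hp hp4 hs hs2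
    obtain ⟨C, hC, h⟩ := wv_all m s p (Pool.Agent.Y507.LS2.Cls m N β γ p R₀ Λ) hone hs hp
    refine ⟨C, hC, ?_⟩
    intro f₀ f₁ h0 h1 hc0 hc1 τ hτ hτ1 hcase
    have hneg : -s / 2 = -(s / 2) := by ring
    have key := h f₀ f₁ h0 h1 hc0 hc1 τ hτ hτ1 (by
      unfold bessel at hcase
      rw [hneg] at hcase
      exact hcase)
    have hw : ∀ t z, wave s τ f₀ f₁ t z = wv (m + 1) s τ f₀ f₁ t z := by
      intro t z
      unfold wave wv bessel e
      rw [hneg]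
    simp only [hw]
    exact key
  · obtain ⟨Λ, hΛ, h⟩ := Pool.Agent.Y507.LS2.ell_reg Pool.Agent.Y96.LS2.thm Pool.Agent.Y195.LS2.thm
      Pool.Agent.Y407.LS2.thm hBALL hm
    exact ⟨Λ, hΛ, fun F hF => h R₀ F hF.1 hF.2.1 hF.2.2⟩
  · intro Λ F hF
    exact Pool.Agent.Y507.LS2.box_reg Pool.Agent.Y96.LS2.thm hF.1 hF.2.1 hF.2.2

end Pool.Agent.Results.MP_ee74d2_an.RegularSlices
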